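import Pool.Agent.U365.POW.J
import Pool.Agent.Results.MP_e734ed_nt.MultiplicativeValues

/-!
# Hall's inequality for all pairs with a coordinate near `s(m)`, `m - φ(m)` or `α m + β f(m)`

Let `s(m)` be the sum of the proper divisors of `m`. Let `G` be a function with steps bounded below by a positive constant and
growth at most `v ^ q`, for example `G v = v`, let `0 ≤ δ ≤ 1/2`, `C` real and `κ ≥ 0`. (1) If `e = q (1/3 - δ/6) + κ < 1`, then
for a set of `m` of lower density at least `1 - e`, `|y² - x³| > C |x| ^ (1/2 - δ)` for ALL integers `x`, `y` with `y² ≠ x³` and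
`||x| - G (s(m))| ≤ s(m) ^ κ`, and the same holds for `m - φ(m)`. (2) If `e = q (2/9 - δ/9) + κ < 1`, the same is true for all `x`,
`y` with `||y| - G (s(m))| ≤ s(m) ^ κ`. For example, for `δ = κ = 0`, `G v = v`: for at least `2/3` of all `m` there is no pair with
`|x| = s(m)` and `|y² - x³| ≤ C |x| ^ (1/2)`, and for at least `7/9` of all `m` none with `|y| = s(m)`. More precisely this holds
for almost all `m` with a divisor `≥ m ^ (e + ρ)` which is a prime or the product of two different primes, and for the values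
`g = α m + β f(m)` of multiplicative functions with `f p = p + c` at the primes, uniformly in `|α|, |β| ≤ N ^ δ'` and with a power
saving in the number of the exceptional `m`.

Proof. The number of the exceptional pairs has a power saving (starting theorem). Let `m = k v p` with large primes `p ≠ v`. Then
`g = A v p + B (v + p) + B c`, `A = α k + β f(k)`, `B = β c f(k)`, and so `(A v + B) (A p + B) = A g + B² - A B c`: for given `g`,
`k`, `α`, `β` there are only `N^o(1)` possibilities for `p` and `v`.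

If the exponent `e` is smaller than `1/2`, no divisor is needed: the property holds for almost all `m` (for all `m ≤ N` but at
most `N / (log N) ^ A`, for every `A`), for all `α ≠ 0`, `β`. Here we use the divisors `D` of `m` without small prime factors:
`α m` is congruent to `g` modulo `f(D)`; if the size of all such `D` is inconvenient, then `m = R D` where the prime factors of
`D` are so large that `D` lies in a short interval which is given by `R` and `g`.
-/

set_option autoImplicit false

namespace Pool.Agent.Results.MP_e734ed_nt.AliquotValues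

open Pool.Agent.U365.POW (Law law_set law_mono)
open Pool.Agent.N733.TG (Expanding)
open Pool.Agent.Results.MP_e734ed_nt.MultiplicativeValues (Exc count_x count_y)

/-- `|y² - x³| > C |x| ^ (1/2 - δ)` for ALL integers `x`, `y` with `y² ≠ x³` and `||x| - G g| ≤ g ^ κ` -/
def NearX (δ C : ℝ) (G : ℕ → ℝ) (κ : ℝ) (g : ℕ) : Prop :=
  ∀ x y : ℤ, y ^ 2 ≠ x ^ 3 → |(|x| : ℝ) - G g| ≤ (g : ℝ) ^ κ →
    C * |(x : ℝ)| ^ (1 / 2 - δ) < |(y : ℝ) ^ 2 - (x : ℝ) ^ 3|

/-- `|y² - x³| > C |x| ^ (1/2 - δ)` for ALL integers `x`, `y` with `y² ≠ x³` and `||y| - G g| ≤ g ^ κ` -/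
def NearY (δ C : ℝ) (G : ℕ → ℝ) (κ : ℝ) (g : ℕ) : Prop :=
  ∀ x y : ℤ, y ^ 2 ≠ x ^ 3 → |(|y| : ℝ) - G g| ≤ (g : ℝ) ^ κ →
    C * |(x : ℝ)| ^ (1 / 2 - δ) < |(y : ℝ) ^ 2 - (x : ℝ) ^ 3|

/-- **Theorem.** Let `G` have steps `≥ a > 0` and growth at most `v^q`, `0 ≤ δ ≤ 1/2`, `C` real and `κ ≥ 0`. (1) Let `e = q (1/3 -
δ/6) + κ < 1`. The property `NearX` holds for the values of similar functions as the aliquot sum with the exponent `e` (`Law`):
if this exponent is smaller than `1/2`, then (1) for ALL `α m + β f(m)` at almost all `m`, and so for `s(m)` and `m - φ(m)` for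
almost all `m`; in general, (2) at almost all the `m` with a divisor `≥ m ^ (e + ρ)` which is a prime or the product of two
different primes, and for `s(m)` and `m - φ(m)` for a set of `m` of lower density at least `1 - (e)`. (2) If `e = q (2/9 - δ/9)
+ κ < 1`, the same is true of the property `NearY`. -/
theorem result : ∀ (G : ℕ → ℝ) (q : ℝ), Expanding G q → ∀ κ δ C : ℝ, 0 ≤ κ → 0 ≤ δ → δ ≤ 1 / 2 →
      (q * (1 / 3 - δ / 6) + κ < 1 →
        Law (q * (1 / 3 - δ / 6) + κ) (NearX δ C G κ)) ∧
      (q * (2 / 9 - δ / 9) + κ < 1 →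
        Law (q * (2 / 9 - δ / 9) + κ) (NearY δ C G κ)) := by
  intro G q hG κ δ C hκ h0 h1
  refine ⟨fun h2 => ?_, fun h2 => ?_⟩
  · have a := law_set (Exc C δ) (fun e => |((e.1 : ℤ) : ℝ)|) hG (s := 1 / 3 - δ / 6) (κ := κ)
      (by linarith) hκ h2 (count_x C δ h0 h1)
    have hm : ∀ g : ℕ, (∀ t : ℤ × ℤ, |(|((t.1 : ℤ) : ℝ)|) - G g| ≤ (g : ℝ) ^ κ → t ∉ Exc C δ) → NearX δ C G κ g := by
      intro g hg x y hxy hw
      by_contra hcon
      exact hg (x, y) hw ⟨hxy, not_lt.1 hcon⟩
    exact law_mono a hm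
  · have a := law_set (Exc C δ) (fun e => |((e.2 : ℤ) : ℝ)|) hG (s := 2 / 9 - δ / 9) (κ := κ)
      (by linarith) hκ h2 (count_y C δ h0 h1)
    have hm : ∀ g : ℕ, (∀ t : ℤ × ℤ, |(|((t.2 : ℤ) : ℝ)|) - G g| ≤ (g : ℝ) ^ κ → t ∉ Exc C δ) → NearY δ C G κ g := by
      intro g hg x y hxy hw
      by_contra hcon
      exact hg (x, y) hw ⟨hxy, not_lt.1 hcon⟩
    exact law_mono a hm

end Pool.Agent.Results.MP_e734ed_nt.AliquotValues
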