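import Pool.Agent.U536.CF.F
import Pool.Agent.Results.MP_e734ed_nt.MultiplicativeValues

/-!
# The weak form of Hall's conjecture near integers with a large common factor with a value of a multiplicative function

Let `f` be a positive multiplicative function of at most polynomial growth such that `f p ≤ M p` for the large primes `p`,
with different values at different large primes; for example Euler's function or the sum of the divisors. Let `G` have
steps bounded below by a positive constant and growth at most `v^e`, for example `α v^e`. Let `b < 1` and `0 ≤ c < 2 b -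
1`. For all `m ≤ N` but `N exp (-(log N)^c)`, for EVERY integer `w ≥ exp ((log N)^b)` with `gcd(w, f(m)) ≥ w^ρ`, `|y² -
x³| > C |x| ^ (1/2 - δ)` for all integers `x`, `y` with `y² ≠ x³` and `||x| - G w| ≤ w^κ` (part 1) or `||y| - G w| ≤ w^κ`
(part 2), if `0 ≤ δ ≤ 1/2`, `κ ≥ 0` and `e (1/3 - δ/6) + κ < ρ ≤ 1` (part 1), `e (2/9 - δ/9) + κ < ρ ≤ 1` (part 2). The
integers `w` include all large divisors of `f(m)` and their multiples by small integers; for Euler's function, the orders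
of the elements of the group of units modulo `m`.

Proof. Write `m = k u` with `u` squarefree and composed of primes larger than `N^(1/J)`, `J = (log N)^a`, and `k ≤ exp (4
(log N)^a)`; this is possible for all `m ≤ N` but very few. If `v ∣ f(k) f(u)`, then `v = g v'` with `g ∣ f(k)` and `v' ∣
∏ f(p)`, and the number of such `u ≤ N / k` is at most `N / (k v')` times `(log N)^O(J)` times the number `τ_J(v')` of the
ordered factorizations of `v'` into `J` factors. The inequality `τ_J^q ≤ τ_K` for `K ≥ J^q` and Hölder's inequality bound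
the sum over the sparse set of the exceptional `v`. The file `MultiplicativeValues` of the starting library treats the
integers `w = f(m)`, with `N / (log N)^U` exceptions.
-/

set_option autoImplicit false

namespace Pool.Agent.Results.MP_e734ed_nt.CommonFactors

open Pool.Agent.N733.TG (LM Expanding lm_totient lm_sigma expanding_pow)
open Pool.Agent.U536.CF (Common common_windows common_of_dvd common_order)
open Pool.Agent.Results.MP_e734ed_nt.MultiplicativeValues (Exc count_x count_y)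

/-- **The weak form of Hall's conjecture near integers with a large common factor with a value of a multiplicative function.**
Let `f` be multiplicative and positive, of at most polynomial growth, with `f p ≤ M p` at the large primes, and injective
there. Let `G` have steps `≥ a > 0` and growth at most `v^e`. Let `b < 1` and `0 ≤ c < 2 b - 1`, `0 ≤ δ ≤ 1/2`, `κ ≥ 0`
and `e (1/3 - δ/6) + κ < ρ ≤ 1` (part 1), `e (2/9 - δ/9) + κ < ρ ≤ 1` (part 2). For all large `N`, for all `m ≤ N` but `N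
exp (-(log N)^c)`, for EVERY integer `w ≥ exp ((log N)^b)` with `gcd(w, f(m)) ≥ w^ρ`, `|y² - x³| > C |x| ^ (1/2 - δ)` for
all integers `x`, `y` with `y² ≠ x³` and `||x| - G w| ≤ w^κ` (part 1) or `||y| - G w| ≤ w^κ` (part 2). All divisors `w ≥
exp ((log N)^b)` of `f(m)` are such integers `w`, and for Euler's function the orders `≥ exp ((log N)^b)` of the units
modulo `m`. Euler's function and the sum of the divisors are examples of `f`, and `α v^e` with `α > 0`, `e ≥ 1` is an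
example of `G`. -/
theorem result :
    (∀ f : ℕ → ℕ, LM f → ∀ (G : ℕ → ℝ) (e : ℝ), Expanding G e → ∀ κ δ C ρ b c : ℝ, 0 ≤ κ → 0 ≤ δ → δ ≤ 1 / 2 →
      ρ ≤ 1 → b < 1 → 0 ≤ c → c < 2 * b - 1 →
      (e * (1 / 3 - δ / 6) + κ < ρ → ∃ N₀ : ℕ, ∀ N : ℕ, N₀ ≤ N →
        ({m : ℕ | 1 ≤ m ∧ m ≤ N ∧ ¬ ∀ w : ℕ, Common f b ρ N m w → ∀ x y : ℤ, y ^ 2 ≠ x ^ 3 →
          |(|x| : ℝ) - G w| ≤ (w : ℝ) ^ κ → C * |(x : ℝ)| ^ (1 / 2 - δ) < |(y : ℝ) ^ 2 - (x : ℝ) ^ 3|}.ncard : ℝ) ≤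
          N * Real.exp (-(Real.log N ^ c))) ∧
      (e * (2 / 9 - δ / 9) + κ < ρ → ∃ N₀ : ℕ, ∀ N : ℕ, N₀ ≤ N →
        ({m : ℕ | 1 ≤ m ∧ m ≤ N ∧ ¬ ∀ w : ℕ, Common f b ρ N m w → ∀ x y : ℤ, y ^ 2 ≠ x ^ 3 →
          |(|y| : ℝ) - G w| ≤ (w : ℝ) ^ κ → C * |(x : ℝ)| ^ (1 / 2 - δ) < |(y : ℝ) ^ 2 - (x : ℝ) ^ 3|}.ncard : ℝ) ≤
          N * Real.exp (-(Real.log N ^ c)))) ∧
    (LM Nat.totient ∧ LM (fun m => ∑ d ∈ m.divisors, d)) ∧
    (∀ α d : ℝ, 0 < α → 1 ≤ d → Expanding (fun v => α * (v : ℝ) ^ d) d) ∧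
    (∀ (f : ℕ → ℕ) (b ρ : ℝ) (N m w : ℕ), ρ ≤ 1 → Real.exp (Real.log N ^ b) ≤ (w : ℝ) → w ∣ f m → Common f b ρ N m w) ∧
    ∀ (b ρ : ℝ) (N m : ℕ), ρ ≤ 1 → ∀ x : (ZMod m)ˣ, Real.exp (Real.log N ^ b) ≤ (orderOf x : ℝ) →
      Common Nat.totient b ρ N m (orderOf x) := by
  refine ⟨?_, ⟨lm_totient, lm_sigma⟩, fun α d hα hd => expanding_pow hα hd, fun f b ρ N m w hρ hw hd => common_of_dvd hρ hw hd,
    fun b ρ N m hρ x hx => common_order hρ x hx⟩
  refine fun f hf G e hG κ δ C ρ b c hκ h0 h1 hρ hb hc hcb => ⟨fun h2 => ?_, fun h2 => ?_⟩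
  · obtain ⟨N₀, hN₀⟩ := common_windows (Exc C δ) (fun e => |((e.1 : ℤ) : ℝ)|) hf hG (s := 1 / 3 - δ / 6) (κ := κ)
      (by linarith) hκ h2 hρ hb hc hcb (count_x C δ h0 h1)
    refine ⟨N₀, fun N hN => le_trans ?_ (hN₀ N hN)⟩
    have hfin : {m : ℕ | 1 ≤ m ∧ m ≤ N ∧ ∃ w : ℕ, Common f b ρ N m w ∧ ∃ t ∈ Exc C δ,
        |(|((t.1 : ℤ) : ℝ)|) - G w| ≤ (w : ℝ) ^ κ}.Finite := (Set.finite_Icc 1 N).subset fun m hm => ⟨hm.1, hm.2.1⟩
    refine Nat.cast_le.2 (Set.ncard_le_ncard ?_ hfin)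
    rintro m ⟨h3, h4, h5⟩
    push Not at h5
    obtain ⟨w, hw', x, y, hxy, hw, hcon⟩ := h5
    exact ⟨h3, h4, w, hw', (x, y), ⟨hxy, hcon⟩, hw⟩
  · obtain ⟨N₀, hN₀⟩ := common_windows (Exc C δ) (fun e => |((e.2 : ℤ) : ℝ)|) hf hG (s := 2 / 9 - δ / 9) (κ := κ)
      (by linarith) hκ h2 hρ hb hc hcb (count_y C δ h0 h1)
    refine ⟨N₀, fun N hN => le_trans ?_ (hN₀ N hN)⟩
    have hfin : {m : ℕ | 1 ≤ m ∧ m ≤ N ∧ ∃ w : ℕ, Common f b ρ N m w ∧ ∃ t ∈ Exc C δ,
        |(|((t.2 : ℤ) : ℝ)|) - G w| ≤ (w : ℝ) ^ κ}.Finite := (Set.finite_Icc 1 N).subset fun m hm => ⟨hm.1, hm.2.1⟩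
    refine Nat.cast_le.2 (Set.ncard_le_ncard ?_ hfin)
    rintro m ⟨h3, h4, h5⟩
    push Not at h5
    obtain ⟨w, hw', x, y, hxy, hw, hcon⟩ := h5
    exact ⟨h3, h4, w, hw', (x, y), ⟨hxy, hcon⟩, hw⟩

end Pool.Agent.Results.MP_e734ed_nt.CommonFactors
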