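import Mathlib
import Pool.Agent.U964.ML.Expl
import Pool.Agent.U964.ML.Uni

/-!
# Hall's inequality, explicitly and with every exponent below 3, when `x³ / y²` is near a power in the multiplicative sense

Let `x`, `y` be non-zero integers such that

`x³ / y² = ± (b / a) (X / Y) ^ n`

with natural numbers `a, b ≤ exp H` and coprime natural numbers `X`, `Y`, not both equal to `1`. If
`10 ^ 7 H (2 + log n) ^ 2 ≤ δ n`, `0 < δ ≤ 1`, then

`|y² - x³| ≥ max (|x|³, y²) ^ (1 - δ)`,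

with the constant `1`; in particular `|y² - x³| ≥ |x| ^ (3 - 3 δ)`. Here the numbers `a`, `b` are arbitrary (not composed
of fixed primes) and their size may grow exponentially with `n / log² n`. The proof is by a lower bound for
`n log (X / Y) - log (a / b)` which is explicit and linear in both heights (`U964.ML.Two`).
-/

set_option autoImplicit false

namespace Pool.Agent.Results.MP_e734ed_nt.ExplicitNearPowers

open Pool.Agent.U964.ML

lemma size (n H : ℕ) (hH : 1 ≤ H) (δ : ℝ)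
    (hn : 10 ^ 7 * H * (2 + Real.log n) ^ 2 ≤ δ * n) : 4 * 10 ^ 7 * (H : ℝ) ≤ δ * n := by
  have hHr : (1:ℝ) ≤ H := by exact_mod_cast hH
  have hl : 0 ≤ Real.log n := Real.log_natCast_nonneg n
  have h1 : (4:ℝ) ≤ (2 + Real.log n) ^ 2 := by nlinarith
  have h2 : 10 ^ 7 * (H:ℝ) * 4 ≤ 10 ^ 7 * H * (2 + Real.log n) ^ 2 := by gcongr
  linarith

lemma key (a b X Y n H : ℕ) (M δ : ℝ) (ha : 1 ≤ a) (hb : 1 ≤ b) (hH : 1 ≤ H)
    (haH : Real.log a ≤ H) (hbH : Real.log b ≤ H) (hX : 1 ≤ X) (hY : 1 ≤ Y)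
    (hcop : Nat.Coprime X Y) (hXM : (X : ℝ) ≤ M) (hYM : (Y : ℝ) ≤ M)
    (hor : (X : ℝ) = M ∨ (Y : ℝ) = M) (hM2 : 2 ≤ M) (hδ : 0 < δ) (hδ1 : δ ≤ 1) (hn1 : 1 ≤ n)
    (hn : 10 ^ 7 * H * (2 + Real.log n) ^ 2 ≤ δ * n) :
    1 / 4 * M ^ ((n : ℝ) * (1 - 3 * δ / 4)) ≤ |(a : ℝ) * Y ^ n - b * X ^ n| := by
  have hs := size n H hH δ hn
  have hHr : (1:ℝ) ≤ H := by exact_mod_cast hH
  have hM0 : 0 < M := by linarith
  have hM1 : 1 ≤ M := by linarith
  have hXr : (1:ℝ) ≤ X := by exact_mod_cast hX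
  have hYr : (1:ℝ) ≤ Y := by exact_mod_cast hY
  have har : (1:ℝ) ≤ a := by exact_mod_cast ha
  have hp0 : 0 < M ^ ((n : ℝ) * (1 - 3 * δ / 4)) := Real.rpow_pos_of_pos hM0 _
  by_cases hab : a = b
  · have hXY : X ≠ Y := by
      rintro rfl
      rw [Nat.coprime_self] at hcop
      rw [hcop, Nat.cast_one] at hor
      rcases hor with h | h <;> linarith
    have hle : M ^ ((n : ℝ) * (1 - 3 * δ / 4)) ≤ M ^ (n - 1) := by
      rw [← Real.rpow_natCast]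
      apply Real.rpow_le_rpow_of_exponent_le hM1
      rw [Nat.cast_sub hn1]
      push_cast
      nlinarith
    have habs : (1:ℝ) ≤ |(X:ℝ) - Y| := by
      have h1 : ((X:ℤ) - Y) ≠ 0 := by
        rw [sub_ne_zero]
        exact_mod_cast hXY
      have h2 := Int.one_le_abs h1
      have h3 : (1:ℝ) ≤ |(((X:ℤ) - Y : ℤ) : ℝ)| := by exact_mod_cast h2
      push_cast at h3
      exact h3
    have hlow : M ^ (n - 1) ≤ |(Y:ℝ) ^ n - (X:ℝ) ^ n| := by
      rcases hor with h | h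
      · have h1 := pow_diff (X:ℝ) (Y:ℝ) (by linarith) (by linarith) n hn1
        rw [abs_sub_comm ((X:ℝ) ^ n)] at h1
        rw [h] at h1 habs ⊢
        refine le_trans ?_ h1
        exact le_mul_of_one_le_left (by positivity) habs
      · have h1 := pow_diff (Y:ℝ) (X:ℝ) (by linarith) (by linarith) n hn1
        rw [abs_sub_comm (Y:ℝ)] at h1
        rw [h] at h1 habs ⊢
        refine le_trans ?_ h1
        exact le_mul_of_one_le_left (by positivity) habs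
    rw [← hab, ← mul_sub, abs_mul, abs_of_pos (by linarith : (0:ℝ) < a)]
    calc 1 / 4 * M ^ ((n : ℝ) * (1 - 3 * δ / 4)) ≤ 1 * M ^ ((n : ℝ) * (1 - 3 * δ / 4)) := by
          gcongr
          norm_num
      _ = M ^ ((n : ℝ) * (1 - 3 * δ / 4)) := one_mul _
      _ ≤ M ^ (n - 1) := hle
      _ ≤ |(Y:ℝ) ^ n - (X:ℝ) ^ n| := hlow
      _ ≤ a * |(Y:ℝ) ^ n - (X:ℝ) ^ n| := le_mul_of_one_le_left (abs_nonneg _) har
  · by_contra hcon
    rw [not_le] at hcon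
    obtain ⟨E, hE⟩ : ∃ E : ℝ, E = M ^ ((n:ℝ) * (δ / 4)) / 4 := ⟨_, rfl⟩
    have hME : (4:ℝ) ≤ M ^ ((n:ℝ) * (δ / 4)) := by
      calc (4:ℝ) = (2:ℝ) ^ (2:ℝ) := by norm_num
        _ ≤ M ^ (2:ℝ) := Real.rpow_le_rpow (by norm_num) hM2 (by norm_num)
        _ ≤ M ^ ((n:ℝ) * (δ / 4)) := by
            apply Real.rpow_le_rpow_of_exponent_le hM1
            nlinarith
    have hE1 : 1 ≤ E := by rw [hE]; linarith
    have hclose : |(a : ℝ) * Y ^ n - b * X ^ n| ≤ E * M ^ ((n : ℝ) * (1 - δ)) := by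
      refine hcon.le.trans (le_of_eq ?_)
      have e : M ^ ((n : ℝ) * (1 - 3 * δ / 4)) =
          M ^ ((n:ℝ) * (δ / 4)) * M ^ ((n : ℝ) * (1 - δ)) := by
        rw [← Real.rpow_add hM0]
        congr 1
        ring
      rw [hE, e]
      ring
    have h1 := expl a b X Y n H M δ E ha hb hab hH haH hbH hXM hYM hor hM1 hδ hδ1 hn1 hn hE1
      hclose
    have h2 : (3 * E) ^ (4 / δ) < M ^ n := by
      have h3 : 3 * E < M ^ ((n:ℝ) * (δ / 4)) := by rw [hE]; linarith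
      have h4 := Real.rpow_lt_rpow (by linarith : (0:ℝ) ≤ 3 * E) h3
        (by positivity : (0:ℝ) < 4 / δ)
      rw [← Real.rpow_mul hM0.le] at h4
      have h5 : (n:ℝ) * (δ / 4) * (4 / δ) = n := by field_simp
      rwa [h5, Real.rpow_natCast] at h4
    linarith

theorem result (n H : ℕ) (hn1 : 1 ≤ n) (hH : 1 ≤ H) (δ : ℝ) (hδ : 0 < δ) (hδ1 : δ ≤ 1)
    (hn : 10 ^ 7 * H * (2 + Real.log n) ^ 2 ≤ δ * n) (x y : ℤ) (hx : x ≠ 0) (hy : y ≠ 0)
    (a b X Y : ℕ) (ha : 1 ≤ a) (hb : 1 ≤ b) (haH : Real.log a ≤ H) (hbH : Real.log b ≤ H)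
    (hX : 1 ≤ X) (hY : 1 ≤ Y) (hcop : Nat.Coprime X Y) (hXY : ¬ (X = 1 ∧ Y = 1))
    (hquot : |(x : ℝ)| ^ 3 * (a * (Y : ℝ) ^ n) = (y : ℝ) ^ 2 * (b * (X : ℝ) ^ n)) :
    (max (|(x : ℝ)| ^ 3) ((y : ℝ) ^ 2)) ^ (1 - δ) ≤ |(y : ℝ) ^ 2 - (x : ℝ) ^ 3| := by
  have hs := size n H hH δ hn
  have hHr : (1:ℝ) ≤ H := by exact_mod_cast hH
  obtain ⟨P, hP⟩ : ∃ P : ℕ, P = x.natAbs ^ 3 := ⟨_, rfl⟩
  obtain ⟨Q, hQ⟩ : ∃ Q : ℕ, Q = y.natAbs ^ 2 := ⟨_, rfl⟩
  have hP1 : 1 ≤ P := by rw [hP]; exact pow_pos (Int.natAbs_pos.2 hx) 3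
  have hQ1 : 1 ≤ Q := by rw [hQ]; exact pow_pos (Int.natAbs_pos.2 hy) 2
  have hPr : (P:ℝ) = |(x:ℝ)| ^ 3 := by rw [hP]; push_cast; rw [Nat.cast_natAbs, Int.cast_abs]
  have hQr : (Q:ℝ) = (y:ℝ) ^ 2 := by
    rw [hQ]
    push_cast
    rw [Nat.cast_natAbs, Int.cast_abs, sq_abs]
  have hPr1 : (1:ℝ) ≤ P := by exact_mod_cast hP1
  have hQr1 : (1:ℝ) ≤ Q := by exact_mod_cast hQ1
  rw [← hPr, ← hQr] at hquot
  obtain ⟨V, hV⟩ : ∃ V : ℝ, V = max (P:ℝ) Q := ⟨_, rfl⟩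
  have hPV : (P:ℝ) ≤ V := by rw [hV]; exact le_max_left _ _
  have hQV : (Q:ℝ) ≤ V := by rw [hV]; exact le_max_right _ _
  have hV1 : 1 ≤ V := by linarith
  have hV0 : 0 < V := by linarith
  have hVδ0 : 0 < V ^ (1 - δ) := Real.rpow_pos_of_pos hV0 _
  have hVle : V ^ (1 - δ) ≤ V := by
    calc V ^ (1 - δ) ≤ V ^ (1:ℝ) := Real.rpow_le_rpow_of_exponent_le hV1 (by linarith)
      _ = V := Real.rpow_one _
  rw [← hPr, ← hQr, ← hV]
  rcases lt_or_gt_of_ne hx with hneg | hpos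
  · have hxr : (x:ℝ) < 0 := by exact_mod_cast hneg
    have h1 : (x:ℝ) ^ 3 = -(P:ℝ) := by
      rw [hPr, abs_of_neg hxr]
      ring
    rw [h1, sub_neg_eq_add, abs_of_pos (by linarith)]
    exact hVle.trans (by rw [hV]; exact max_le (by linarith) (by linarith))
  have hxr : (0:ℝ) < x := by exact_mod_cast hpos
  have hx3 : (x:ℝ) ^ 3 = (P:ℝ) := by rw [hPr, abs_of_pos hxr]
  rw [hx3]
  -- the size of `X`, `Y`
  obtain ⟨M, hM⟩ : ∃ M : ℝ, M = max (X:ℝ) Y := ⟨_, rfl⟩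
  have hXM : (X:ℝ) ≤ M := by rw [hM]; exact le_max_left _ _
  have hYM : (Y:ℝ) ≤ M := by rw [hM]; exact le_max_right _ _
  have hor : (X:ℝ) = M ∨ (Y:ℝ) = M := by
    rw [hM]
    rcases le_total (X:ℝ) Y with h1 | h1
    · exact Or.inr (max_eq_right h1).symm
    · exact Or.inl (max_eq_left h1).symm
  have hM2 : 2 ≤ M := by
    have h1 : 2 ≤ X ∨ 2 ≤ Y := by omega
    rcases h1 with h1 | h1
    · have : (2:ℝ) ≤ X := by exact_mod_cast h1
      linarith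
    · have : (2:ℝ) ≤ Y := by exact_mod_cast h1
      linarith
  have hM0 : 0 < M := by linarith
  have hM1 : 1 ≤ M := by linarith
  have hkey := key a b X Y n H M δ ha hb hH haH hbH hX hY hcop hXM hYM hor hM2 hδ hδ1 hn1 hn
  obtain ⟨D, hD⟩ : ∃ D : ℝ, D = |(a : ℝ) * Y ^ n - b * X ^ n| := ⟨_, rfl⟩
  rw [← hD] at hkey
  have har : (1:ℝ) ≤ a := by exact_mod_cast ha
  have hbr : (1:ℝ) ≤ b := by exact_mod_cast hb
  have haE : (a:ℝ) ≤ Real.exp H := by
    rw [← Real.exp_log (by linarith : (0:ℝ) < a)]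
    exact Real.exp_le_exp.2 haH
  have hbE : (b:ℝ) ≤ Real.exp H := by
    rw [← Real.exp_log (by linarith : (0:ℝ) < b)]
    exact Real.exp_le_exp.2 hbH
  have hE0 : 0 < Real.exp H := Real.exp_pos _
  have hXn0 : (0:ℝ) < (X:ℝ) ^ n := by positivity
  have hYn0 : (0:ℝ) < (Y:ℝ) ^ n := by positivity
  have hXnM : (X:ℝ) ^ n ≤ M ^ n := pow_le_pow_left₀ (Nat.cast_nonneg _) hXM n
  have hYnM : (Y:ℝ) ^ n ≤ M ^ n := pow_le_pow_left₀ (Nat.cast_nonneg _) hYM n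
  obtain ⟨F, hF⟩ : ∃ F : ℝ, F = |(Q:ℝ) - P| := ⟨_, rfl⟩
  have hF0 : 0 ≤ F := by rw [hF]; exact abs_nonneg _
  -- the relation between the two differences
  have e1 : F * (b * (X:ℝ) ^ n) = P * D := by
    rw [hF, hD, ← abs_of_pos (by positivity : (0:ℝ) < b * (X:ℝ) ^ n), ← abs_mul,
      ← abs_of_pos (by linarith : (0:ℝ) < (P:ℝ)), ← abs_mul,
      abs_of_pos (by positivity : (0:ℝ) < b * (X:ℝ) ^ n), abs_of_pos (by linarith : (0:ℝ) < (P:ℝ))]
    congr 1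
    linear_combination -hquot
  have e2 : F * (a * (Y:ℝ) ^ n) = Q * D := by
    rw [hF, hD, ← abs_of_pos (by positivity : (0:ℝ) < a * (Y:ℝ) ^ n), ← abs_mul,
      ← abs_of_pos (by linarith : (0:ℝ) < (Q:ℝ)), ← abs_mul,
      abs_of_pos (by positivity : (0:ℝ) < a * (Y:ℝ) ^ n), abs_of_pos (by linarith : (0:ℝ) < (Q:ℝ))]
    congr 1
    linear_combination -hquot
  have e3 : V * D ≤ F * (Real.exp H * M ^ n) := by
    have hVor : V = P ∨ V = Q := by
      rw [hV]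
      rcases le_total (P:ℝ) Q with h1 | h1
      · exact Or.inr (max_eq_right h1)
      · exact Or.inl (max_eq_left h1)
    rcases hVor with h1 | h1
    · rw [h1, ← e1]
      exact mul_le_mul_of_nonneg_left (mul_le_mul hbE hXnM hXn0.le hE0.le) hF0
    · rw [h1, ← e2]
      exact mul_le_mul_of_nonneg_left (mul_le_mul haE hYnM hYn0.le hE0.le) hF0
  -- `M ^ n` is not much larger than `V`
  have hquotN : P * (a * Y ^ n) = Q * (b * X ^ n) := by exact_mod_cast hquot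
  have e4 : M ^ n ≤ Real.exp H * V := by
    rcases hor with h | h
    · have h1 : X ^ n ∣ (P * a) * Y ^ n := ⟨Q * b, by rw [mul_assoc, hquotN]; ring⟩
      have h2 : X ^ n ∣ P * a := (Nat.Coprime.pow n n hcop).dvd_of_dvd_mul_right h1
      have h3 : X ^ n ≤ P * a := Nat.le_of_dvd (Nat.mul_pos hP1 ha) h2
      have h4 : (X:ℝ) ^ n ≤ P * a := by exact_mod_cast h3
      rw [← h]
      calc (X:ℝ) ^ n ≤ P * a := h4
        _ ≤ V * Real.exp H := mul_le_mul hPV haE (by linarith) hV0.le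
        _ = _ := mul_comm _ _
    · have h1 : Y ^ n ∣ (Q * b) * X ^ n := ⟨P * a, by rw [mul_assoc, ← hquotN]; ring⟩
      have h2 : Y ^ n ∣ Q * b := (Nat.Coprime.pow n n hcop.symm).dvd_of_dvd_mul_right h1
      have h3 : Y ^ n ≤ Q * b := Nat.le_of_dvd (Nat.mul_pos hQ1 hb) h2
      have h4 : (Y:ℝ) ^ n ≤ Q * b := by exact_mod_cast h3
      rw [← h]
      calc (Y:ℝ) ^ n ≤ Q * b := h4
        _ ≤ V * Real.exp H := mul_le_mul hQV hbE (by linarith) hV0.le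
        _ = _ := mul_comm _ _
  -- everything in logarithms
  have hD0 : 0 < D := lt_of_lt_of_le (by positivity) hkey
  have hFpos : 0 < F := by
    rcases hF0.lt_or_eq with h | h
    · exact h
    · exfalso
      rw [← h, zero_mul] at e1
      have : 0 < (P:ℝ) * D := by positivity
      linarith
  have hMn0 : 0 < M ^ n := by positivity
  have l1 := Real.log_le_log (by positivity) e3
  rw [Real.log_mul hV0.ne' hD0.ne', Real.log_mul hFpos.ne' (by positivity),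
    Real.log_mul hE0.ne' hMn0.ne', Real.log_exp, Real.log_pow] at l1
  have l2 := Real.log_le_log (by positivity) hkey
  rw [Real.log_mul (by norm_num) (Real.rpow_pos_of_pos hM0 _).ne', Real.log_rpow hM0,
    one_div, Real.log_inv] at l2
  have l3 := Real.log_le_log hMn0 e4
  rw [Real.log_mul hE0.ne' hV0.ne', Real.log_exp, Real.log_pow] at l3
  obtain ⟨v, hv⟩ : ∃ v : ℝ, v = Real.log V := ⟨_, rfl⟩
  obtain ⟨m, hm⟩ : ∃ m : ℝ, m = (n:ℝ) * Real.log M := ⟨_, rfl⟩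
  have hlog4 : Real.log 4 ≤ 2 := by
    have h1 : Real.log 4 = 2 * Real.log 2 := by
      rw [show (4:ℝ) = 2 ^ 2 by norm_num, Real.log_pow]
      push_cast
      ring
    have h2 := Real.log_two_lt_d9
    linarith
  have hm2 : (n:ℝ) * (1 / 2) ≤ m := by
    rw [hm]
    have h1 := Real.log_two_gt_d9
    have h2 : Real.log 2 ≤ Real.log M := Real.log_le_log (by norm_num) hM2
    have h3 : (0:ℝ) ≤ n := Nat.cast_nonneg _
    nlinarith
  rw [← hv] at l1 l3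
  have l2' : (n:ℝ) * (1 - 3 * δ / 4) * Real.log M = m - 3 * δ / 4 * m := by rw [hm]; ring
  rw [l2'] at l2
  rw [← hm] at l1 l3
  have hHn : 10 ^ 7 * (H:ℝ) ≤ δ * n / 4 := by linarith
  have hδv : δ / 4 * m ≤ δ / 4 * (H + v) := mul_le_mul_of_nonneg_left l3 (by linarith)
  have hδm : δ / 4 * (n * (1 / 2)) ≤ δ / 4 * m := mul_le_mul_of_nonneg_left hm2 (by linarith)
  have h34 : 3 * δ / 4 * m ≤ 3 * δ / 4 * (H + v) := mul_le_mul_of_nonneg_left l3 (by linarith)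
  have hδH : δ * (H:ℝ) ≤ H := by nlinarith
  have hfin : (1 - δ) * v ≤ Real.log F := by nlinarith
  rw [← hF, ← Real.log_le_log_iff hVδ0 hFpos, Real.log_rpow hV0, ← hv]
  exact hfin

end Pool.Agent.Results.MP_e734ed_nt.ExplicitNearPowers
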