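import Pool.Agent.U449.BV.D
import Pool.Agent.Results.MP_e734ed_nt.MultiplicativeValues

/-!
# Hall's inequality for all pairs with a coordinate near `f(a, b) + g(a) + h(b)`, `a`, `b` in arbitrary sets

Let `f(x, y)` be an integer polynomial with a monomial which contains both variables, `A`, `B` ARBITRARY finite sets of at least
`X ^ τ` integers, and `g`, `h` ARBITRARY real functions such that `|f(a, b) + g(a) + h(b)| ≤ X` on `A × B`. Let `0 ≤ δ ≤ 1/2`, `C`
real and `κ ≥ 0`. (1) If `1/3 - δ/6 + κ < τ ≤ 1`, then for all the pairs `(a, b)`, apart from a proportion of at most `X ^ (-ρ)`,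
`|y² - x³| > C |x| ^ (1/2 - δ)` for ALL integers `x`, `y` with `y² ≠ x³` and `||x| - (f(a, b) + g(a) + h(b))| ≤ X ^ κ`. (2) If
`2/9 - δ/9 + κ < τ ≤ 1`, the same is true for all `x`, `y` with `||y| - (f(a, b) + g(a) + h(b))| ≤ X ^ κ`. For example, for
`δ = κ = 0`: for arbitrary sets of more than `X ^ (1/3 + ε)` (`X ^ (2/9 + ε)`) integers, for almost all `(a, b)` there is no pair with
`|x|` (`|y|`) equal to `f(a, b) + g(a) + h(b)` and `|y² - x³| ≤ C |x| ^ (1/2)`. The same holds for the values of all functions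
`F(a, b)` of two variables with few coincidences (`Rare`).

Since `A`, `B`, `g` and `h` are arbitrary, the values have no arithmetic structure, and a value can be taken by very many pairs. So
the number of the exceptional pairs (starting theorems) does not give the result directly. Proof: the inequality of Cauchy and
Schwarz; for most pairs `a, a'` the difference `F(a, b) - F(a', b)` is small for few `b` (`Pool.Agent.U449.BV`).
-/

set_option autoImplicit false

namespace Pool.Agent.Results.MP_e734ed_nt.MixedPolynomials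

open Pool.Agent.U449.BV (Rare OnProducts on_products_set polys)
open Pool.Agent.Results.MP_e734ed_nt.MultiplicativeValues (Exc count_x count_y)

/-- `|y² - x³| > C |x| ^ (1/2 - δ)` for ALL integers `x`, `y` with `y² ≠ x³` and `||x| - v| ≤ W` -/
def NearX (δ C : ℝ) (W v : ℝ) : Prop :=
  ∀ x y : ℤ, y ^ 2 ≠ x ^ 3 → |(|x| : ℝ) - v| ≤ W →
    C * |(x : ℝ)| ^ (1 / 2 - δ) < |(y : ℝ) ^ 2 - (x : ℝ) ^ 3|

/-- `|y² - x³| > C |x| ^ (1/2 - δ)` for ALL integers `x`, `y` with `y² ≠ x³` and `||y| - v| ≤ W` -/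
def NearY (δ C : ℝ) (W v : ℝ) : Prop :=
  ∀ x y : ℤ, y ^ 2 ≠ x ^ 3 → |(|y| : ℝ) - v| ≤ W →
    C * |(x : ℝ)| ^ (1 / 2 - δ) < |(y : ℝ) ^ 2 - (x : ℝ) ^ 3|

/-- **Theorem.** Let `0 ≤ δ ≤ 1/2`, `C` real and `κ ≥ 0`. (1) The property `NearX`, with windows of length `X ^ κ`, holds for
almost all values of functions of two variables with few coincidences, on arbitrary finite sets of at least `X ^ τ` elements,
`τ > 1/3 - δ/6 + κ` (`OnProducts`). (2) The same is true of `NearY` for `τ > 2/9 - δ/9 + κ`. (3) Coincidences are rare for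
`f(a, b) + g(a) + h(b)`, where `f` is any integer polynomial with a monomial which contains both variables, and `g` and `h` are
arbitrary real functions, on arbitrary finite sets of integers. -/
theorem result :
    (∀ κ δ C : ℝ, 0 ≤ κ → 0 ≤ δ → δ ≤ 1 / 2 →
      OnProducts (1 / 3 - δ / 6 + κ) κ (NearX δ C) ∧ OnProducts (2 / 9 - δ / 9 + κ) κ (NearY δ C)) ∧
    ∀ (d : ℕ) (f : MvPolynomial (Fin 2) ℤ), f.totalDegree ≤ d → (∃ m ∈ f.support, m 0 ≠ 0 ∧ m 1 ≠ 0) →
      ∀ (g h : ℤ → ℝ) (A B : Finset ℤ),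
        Rare d A B (fun a b => ((MvPolynomial.eval ![a, b] f : ℤ) : ℝ) + g a + h b) := by
  refine ⟨fun κ δ C hκ h0 h1 => ⟨?_, ?_⟩, polys⟩
  · refine (on_products_set (Exc C δ) (fun e => |((e.1 : ℤ) : ℝ)|) (s := 1 / 3 - δ / 6) (κ := κ)
      (by linarith) hκ (count_x C δ h0 h1)).mono fun W v _ hg x y hxy hw => ?_
    by_contra hcon
    exact hg (x, y) hw ⟨hxy, not_lt.1 hcon⟩
  · refine (on_products_set (Exc C δ) (fun e => |((e.2 : ℤ) : ℝ)|) (s := 2 / 9 - δ / 9) (κ := κ)
      (by linarith) hκ (count_y C δ h0 h1)).mono fun W v _ hg x y hxy hw => ?_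
    by_contra hcon
    exact hg (x, y) hw ⟨hxy, not_lt.1 hcon⟩

end Pool.Agent.Results.MP_e734ed_nt.MixedPolynomials
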